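import Pool.Agent.Run7.h927.Ray

/-! Powers of `π` which are sums of two exponentials. -/

set_option autoImplicit false

namespace Run7.h927.Ray

open Complex Pool.Agent.R347.LW

/-- the power `π ^ t` -/
noncomputable def pp (t : ℚ) : ℂ := ((Real.pi ^ (t : ℝ) : ℝ) : ℂ)

theorem pp_ne_zero (t : ℚ) : pp t ≠ 0 := by
  unfold pp
  exact_mod_cast (Real.rpow_pos_of_pos Real.pi_pos _).ne'

theorem pp_one : pp 1 = (Real.pi : ℂ) := by
  unfold pp
  simp

theorem pp_pow (t : ℚ) (n : ℤ) : pp t ^ n = pp (t * n) := by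
  unfold pp
  rw [← Complex.ofReal_zpow]
  congr 1
  rw [← Real.rpow_intCast, ← Real.rpow_mul Real.pi_pos.le]
  push_cast
  rfl

theorem pi_not_alg {S : Set ℝ} (hS : UltraLiouville S) : ¬ IsAlgebraic (FS S) (Real.pi : ℂ) := by
  intro h
  have hI : IsAlgebraic (FS S) Complex.I := by
    have : IsIntegral (FS S) Complex.I := ⟨Polynomial.X ^ 2 + 1, by monicity!, by simp⟩
    exact this.isAlgebraic
  have h1 := mono_mono hS (a := 1) (b := -1) (u := (Real.pi : ℂ) * Complex.I) (v := 0)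
    isAlgebraic_one isAlgebraic_one.neg (h.mul hI) isAlgebraic_zero one_ne_zero
    (by rw [Complex.exp_pi_mul_I]; simp)
  exact mul_ne_zero (by exact_mod_cast Real.pi_ne_zero) Complex.I_ne_zero h1

theorem pp_not_alg {S : Set ℝ} (hS : UltraLiouville S) {t : ℚ} (ht : 0 < t) :
    ¬ IsAlgebraic (FS S) (pp t) := by
  intro h
  have h1 : IsAlgebraic (FS S) (pp t ^ (t.den : ℤ)) := by
    rw [zpow_natCast]
    exact h.pow _
  rw [pp_pow] at h1
  have h2 : t * (t.den : ℤ) = (t.num : ℚ) := by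
    push_cast
    exact Rat.mul_den_eq_num t
  rw [h2] at h1
  obtain ⟨n, hn⟩ : ∃ n : ℕ, t.num = n := ⟨t.num.toNat, by
    rw [Int.toNat_of_nonneg (Rat.num_nonneg.2 ht.le)]⟩
  have hn1 : 1 ≤ n := by
    have := Rat.num_pos.2 ht
    omega
  have h3 : pp (t.num : ℚ) = (Real.pi : ℂ) ^ n := by
    rw [← pp_one, ← zpow_natCast, pp_pow, one_mul, hn]
  rw [h3] at h1
  exact pi_not_alg hS (IsAlgebraic.of_pow (by omega) h1)

/-- common powers -/
theorem common {t s : ℚ} (ht : 0 < t) (hs : 0 < s) : ∃ l k : ℕ, 1 ≤ l ∧ 1 ≤ k ∧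
    pp t ^ l = pp s ^ k ∧ t * l = s * k := by
  obtain ⟨n, hn⟩ : ∃ n : ℕ, t.num = n := ⟨t.num.toNat, by
    rw [Int.toNat_of_nonneg (Rat.num_nonneg.2 ht.le)]⟩
  obtain ⟨m, hm⟩ : ∃ n : ℕ, s.num = n := ⟨s.num.toNat, by
    rw [Int.toNat_of_nonneg (Rat.num_nonneg.2 hs.le)]⟩
  have hn1 := Rat.num_pos.2 ht
  have hm1 := Rat.num_pos.2 hs
  have e : t * ((m * t.den : ℕ) : ℚ) = s * ((n * s.den : ℕ) : ℚ) := by
    have h1 : t * t.den = n := by rw [Rat.mul_den_eq_num, hn]; simp
    have h2 : s * s.den = m := by rw [Rat.mul_den_eq_num, hm]; simp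
    push_cast
    linear_combination (m : ℚ) * h1 - (n : ℚ) * h2
  refine ⟨m * t.den, n * s.den, ?_, ?_, ?_, e⟩
  · exact Nat.mul_pos (by omega) t.den_pos
  · exact Nat.mul_pos (by omega) s.den_pos
  · have h1 := pp_pow t ((m * t.den : ℕ) : ℤ)
    have h2 := pp_pow s ((n * s.den : ℕ) : ℤ)
    rw [zpow_natCast] at h1 h2
    rw [h1, h2]
    congr 1

/-- `π ^ t = a e ^ u + b e ^ v` with two different terms -/
def Two (S : Set ℝ) (t : ℚ) (a u b v : ℂ) : Prop :=
  IsAlgebraic (FS S) a ∧ IsAlgebraic (FS S) u ∧ IsAlgebraic (FS S) b ∧ IsAlgebraic (FS S) v ∧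
    a ≠ 0 ∧ b ≠ 0 ∧ u ≠ v ∧ pp t = a * Complex.exp u + b * Complex.exp v

/-- `π ^ t = a e ^ u` -/
def One (S : Set ℝ) (t : ℚ) (a u : ℂ) : Prop :=
  IsAlgebraic (FS S) a ∧ IsAlgebraic (FS S) u ∧ pp t = a * Complex.exp u

theorem two_two {S : Set ℝ} (hS : UltraLiouville S) {t s : ℚ} (ht : 0 < t) (hs : 0 < s)
    {a u b v c u' d v' : ℂ} (h : Two S t a u b v) (h' : Two S s c u' d v') :
    t = s ∧ ((a = c ∧ u = u' ∧ b = d ∧ v = v') ∨ (a = d ∧ u = v' ∧ b = c ∧ v = u')) := by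
  obtain ⟨ha, hu, hb, hv, ha0, hb0, huv, e⟩ := h
  obtain ⟨hc, hu', hd, hv', hc0, hd0, huv', e'⟩ := h'
  obtain ⟨l, k, hl, hk, hlk, hts⟩ := common ht hs
  rw [e, e'] at hlk
  obtain ⟨h1, h2⟩ := binom hS ha hb hc hd hu hv hu' hv' ha0 hb0 hc0 hd0 huv huv' l k hl hk hlk
  have hts' : t = s := by
    rw [h1] at hts
    have hk0 : (k : ℚ) ≠ 0 := by exact_mod_cast (by omega : k ≠ 0)
    exact mul_right_cancel₀ hk0 hts
  refine ⟨hts', ?_⟩
  rw [hts', e'] at e
  rcases h2 with ⟨rfl, rfl⟩ | ⟨rfl, rfl⟩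
  · obtain ⟨h3, h4⟩ := two_terms hS hc hd ha hb hu hv huv e
    exact Or.inl ⟨h3.symm, rfl, h4.symm, rfl⟩
  · obtain ⟨h3, h4⟩ := two_terms hS hd hc ha hb hu hv huv (by rw [← e]; ring)
    exact Or.inr ⟨h3.symm, rfl, h4.symm, rfl⟩

theorem two_one {S : Set ℝ} (hS : UltraLiouville S) {t s : ℚ} (ht : 0 < t) (hs : s ≠ 0)
    {a u b v c w : ℂ} (h : Two S t a u b v) (h' : One S s c w) : False := by
  obtain ⟨ha, hu, hb, hv, ha0, hb0, huv, e⟩ := h
  obtain ⟨hc, hw, e'⟩ := h'
  have pos : ∀ (s : ℚ) (c w : ℂ), 0 < s → IsAlgebraic (FS S) c → IsAlgebraic (FS S) w →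
      pp s = c * Complex.exp w → False := by
    intro s c w hs hc hw e'
    obtain ⟨l, k, hl, hk, hlk, hts⟩ := common ht hs
    rw [e, e', mul_pow, ← Complex.exp_nat_mul] at hlk
    exact binom_mono hS ha hb (hc.pow k) hu hv ((isAlgebraic_natCast _).mul hw) ha0 hb0 huv l hl
      hlk
  rcases lt_or_gt_of_ne hs with hs' | hs'
  · refine pos (-s) c⁻¹ (-w) (by linarith) hc.inv hw.neg ?_
    have h1 := pp_pow s (-1)
    rw [zpow_neg_one] at h1
    have h2 : s * ((-1 : ℤ) : ℚ) = -s := by push_cast; ring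
    rw [h2, e', mul_inv, ← Complex.exp_neg] at h1
    exact h1.symm
  · exact pos s c w hs' hc hw e'

theorem one_one {S : Set ℝ} (hS : UltraLiouville S) {t s : ℚ} (ht : 0 < t) (hs : 0 < s)
    {a u b v : ℂ} (h : One S t a u) (h' : One S s b v) : (t : ℂ) * v = s * u := by
  obtain ⟨ha, hu, e⟩ := h
  obtain ⟨hb, hv, e'⟩ := h'
  obtain ⟨l, k, hl, hk, hlk, hts⟩ := common ht hs
  rw [e, e', mul_pow, mul_pow, ← Complex.exp_nat_mul, ← Complex.exp_nat_mul] at hlk
  have ha0 : a ≠ 0 := by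
    rintro rfl
    exact pp_ne_zero t (by rw [e, zero_mul])
  have h1 := mono_mono hS (ha.pow l) (hb.pow k) ((isAlgebraic_natCast _).mul hu)
    ((isAlgebraic_natCast _).mul hv) (pow_ne_zero _ ha0) hlk
  have h2 : (t : ℂ) * l = s * k := by exact_mod_cast congrArg (Rat.cast : ℚ → ℂ) hts
  have hk0 : (k : ℂ) ≠ 0 := by exact_mod_cast (by omega : k ≠ 0)
  have hl0 : (l : ℂ) ≠ 0 := by exact_mod_cast (by omega : l ≠ 0)
  apply mul_left_cancel₀ hk0
  linear_combination -(t : ℂ) * h1 + u * h2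

/-- `1`, `e ^ α`, `π ^ t` are linearly dependent -/
def Dep (S : Set ℝ) (α : ℂ) (t : ℚ) : Prop :=
  ∃ a b c : ℂ, IsAlgebraic (FS S) a ∧ IsAlgebraic (FS S) b ∧ IsAlgebraic (FS S) c ∧
    ¬ (a = 0 ∧ b = 0 ∧ c = 0) ∧ a + b * Complex.exp α + c * pp t = 0

theorem Dep.cases {S : Set ℝ} (hS : UltraLiouville S) {α : ℂ} {t : ℚ} (hα : IsAlgebraic (FS S) α)
    (hα0 : α ≠ 0) (ht : 0 < t) (h : Dep S α t) :
    (∃ a b, Two S t a 0 b α) ∨ (∃ b, One S t b α) := by
  obtain ⟨a, b, c, ha, hb, hc, hne, e⟩ := h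
  have hc0 : c ≠ 0 := by
    rintro rfl
    have h1 := two_terms hS ha hb isAlgebraic_zero isAlgebraic_zero
      (isAlgebraic_zero (R := FS S) (A := ℂ)) hα (Ne.symm hα0)
      (by rw [Complex.exp_zero]; linear_combination e)
    exact hne ⟨h1.1, h1.2, rfl⟩
  have e1 : pp t = -(a / c) + -(b / c) * Complex.exp α := by
    field_simp
    linear_combination e
  by_cases hb0 : b = 0
  · exfalso
    apply pp_not_alg hS ht
    rw [e1, hb0, zero_div, neg_zero, zero_mul, add_zero]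
    rw [div_eq_mul_inv]
    exact (ha.mul hc.inv).neg
  by_cases ha0 : a = 0
  · right
    refine ⟨-(b / c), ?_, hα, by rw [e1, ha0]; simp⟩
    rw [div_eq_mul_inv]
    exact (hb.mul hc.inv).neg
  · left
    refine ⟨-(a / c), -(b / c), ?_, isAlgebraic_zero, ?_, hα, ?_, ?_, Ne.symm hα0, ?_⟩
    · rw [div_eq_mul_inv]
      exact (ha.mul hc.inv).neg
    · rw [div_eq_mul_inv]
      exact (hb.mul hc.inv).neg
    · exact neg_ne_zero.2 (div_ne_zero ha0 hc0)
    · exact neg_ne_zero.2 (div_ne_zero hb0 hc0)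
    · rw [e1, Complex.exp_zero, mul_one]

theorem One.quot {S : Set ℝ} {t : ℚ} {b α : ℂ} (h : One S t b α) :
    IsAlgebraic (FS S) (Complex.exp α / pp t) := by
  obtain ⟨hb, -, e⟩ := h
  have hb0 : b ≠ 0 := by
    rintro rfl
    exact pp_ne_zero t (by rw [e, zero_mul])
  have h1 : Complex.exp α / pp t = b⁻¹ := by
    rw [e]
    have := Complex.exp_ne_zero α
    field_simp
  rw [h1]
  exact hb.inv

theorem dep_dep {S : Set ℝ} (hS : UltraLiouville S) {α β : ℂ} {t s : ℚ}
    (hα : IsAlgebraic (FS S) α) (hα0 : α ≠ 0) (hβ : IsAlgebraic (FS S) β) (hβ0 : β ≠ 0)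
    (ht : 0 < t) (hs : 0 < s) (hne : ¬ (α = β ∧ t = s)) (h : Dep S α t) (h' : Dep S β s) :
    (t : ℂ) * β = s * α ∧ IsAlgebraic (FS S) (Complex.exp α / pp t) ∧
      IsAlgebraic (FS S) (Complex.exp β / pp s) := by
  rcases h.cases hS hα hα0 ht with ⟨a, b, h1⟩ | ⟨b, h1⟩
  · rcases h'.cases hS hβ hβ0 hs with ⟨a', b', h2⟩ | ⟨b', h2⟩
    · exfalso
      obtain ⟨e1, ⟨-, -, -, e2⟩ | ⟨-, e2, -, -⟩⟩ := two_two hS ht hs h1 h2
      · exact hne ⟨e2, e1⟩
      · exact hβ0 e2.symm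
    · exact (two_one hS ht hs.ne' h1 h2).elim
  · rcases h'.cases hS hβ hβ0 hs with ⟨a', b', h2⟩ | ⟨b', h2⟩
    · exact (two_one hS hs ht.ne' h2 h1).elim
    · exact ⟨one_one hS ht hs h1 h2, h1.quot, h2.quot⟩

/-- `1`, the numbers `e ^ w`, `w ∈ W`, and `π ^ t` are linearly dependent -/
def DepW (S : Set ℝ) (W : Finset ℂ) (t : ℚ) : Prop :=
  ∃ (a c : ℂ) (b : ℂ → ℂ), IsAlgebraic (FS S) a ∧ IsAlgebraic (FS S) c ∧
    (∀ w ∈ W, IsAlgebraic (FS S) (b w)) ∧ ¬ (a = 0 ∧ c = 0 ∧ ∀ w ∈ W, b w = 0) ∧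
    a + ∑ w ∈ W, b w * Complex.exp w + c * pp t = 0

/-- `W` is a finite set of nonzero elements of the field -/
def Adm (S : Set ℝ) (W : Finset ℂ) : Prop := ∀ w ∈ W, IsAlgebraic (FS S) w ∧ w ≠ 0

theorem lwW {S : Set ℝ} (hS : UltraLiouville S) (W : Finset ℂ) (hW : Adm S W) (a : ℂ) (b : ℂ → ℂ)
    (ha : IsAlgebraic (FS S) a) (hb : ∀ w ∈ W, IsAlgebraic (FS S) (b w))
    (h : a + ∑ w ∈ W, b w * Complex.exp w = 0) : a = 0 ∧ ∀ w ∈ W, b w = 0 := by
  classical
  have h0 : (0 : ℂ) ∉ W := fun h => (hW 0 h).2 rfl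
  set V := insert 0 W with hV
  set c : ℂ → ℂ := fun w => if w = 0 then a else b w with hc
  have h1 := lw_finset S hS (Finset.univ : Finset V) (fun w => (w : ℂ)) (fun w => c w)
    (fun w => by
      apply mem_KS.2
      rcases Finset.mem_insert.1 w.2 with h2 | h2
      · rw [h2]; exact isAlgebraic_zero
      · exact (hW _ h2).1)
    (fun w => by
      apply mem_KS.2
      simp only [hc]
      split_ifs with h3
      · exact ha
      · exact hb _ ((Finset.mem_insert.1 w.2).resolve_left h3))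
    Subtype.val_injective (by
      rw [Finset.sum_coe_sort V (fun w => c w * Complex.exp w), hV, Finset.sum_insert h0]
      have h5 : ∑ w ∈ W, c w * Complex.exp w = ∑ w ∈ W, b w * Complex.exp w := by
        refine Finset.sum_congr rfl fun w hw => ?_
        simp only [hc]
        rw [if_neg (hW w hw).2]
      rw [h5]
      simp only [hc, if_true, Complex.exp_zero, mul_one]
      exact h)
  constructor
  · have h2 := h1 ⟨0, Finset.mem_insert_self _ _⟩ (Finset.mem_univ _)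
    simpa [hc] using h2
  · intro w hw
    have h2 := h1 ⟨w, Finset.mem_insert_of_mem hw⟩ (Finset.mem_univ _)
    simpa [hc, (hW w hw).2] using h2

theorem DepW.form {S : Set ℝ} (hS : UltraLiouville S) {W : Finset ℂ} (hW : Adm S W) {t : ℚ}
    (h : DepW S W t) : ∃ (a : ℂ) (b : ℂ → ℂ), IsAlgebraic (FS S) a ∧
      (∀ w ∈ W, IsAlgebraic (FS S) (b w)) ∧ pp t = a + ∑ w ∈ W, b w * Complex.exp w := by
  obtain ⟨a, c, b, ha, hc, hb, hne, e⟩ := h
  have hc0 : c ≠ 0 := by
    rintro rfl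
    have h1 := lwW hS W hW a b ha hb (by linear_combination e)
    exact hne ⟨h1.1, rfl, h1.2⟩
  refine ⟨-(a / c), fun w => -(b w / c), ?_, ?_, ?_⟩
  · rw [div_eq_mul_inv]
    exact (ha.mul hc.inv).neg
  · intro w hw
    show IsAlgebraic (FS S) (-(b w / c))
    rw [div_eq_mul_inv]
    exact ((hb w hw).mul hc.inv).neg
  · have h2 : ∑ w ∈ W, -(b w / c) * Complex.exp w = -(1 / c) * ∑ w ∈ W, b w * Complex.exp w := by
      rw [Finset.mul_sum]
      refine Finset.sum_congr rfl fun w _ => ?_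
      ring
    rw [h2]
    field_simp
    linear_combination e

theorem filter {S : Set ℝ} (hS : UltraLiouville S) {t : ℚ} (ht : 0 < t) :
    (∀ W, Adm S W → ¬ DepW S W t) ∨
      ∃ W₀, Adm S W₀ ∧ W₀.Nonempty ∧ ∀ W, Adm S W → (DepW S W t ↔ W₀ ⊆ W) := by
  classical
  by_cases hex : ∃ W, Adm S W ∧ DepW S W t
  · right
    obtain ⟨W₁, hW₁, h₁⟩ := hex
    obtain ⟨a, b, ha, hb, e⟩ := h₁.form hS hW₁
    set W₀ := W₁.filter (fun w => b w ≠ 0) with hW₀
    have hsub : W₀ ⊆ W₁ := Finset.filter_subset _ _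
    have hsum : ∑ w ∈ W₀, b w * Complex.exp w = ∑ w ∈ W₁, b w * Complex.exp w := by
      rw [hW₀, Finset.sum_filter]
      refine Finset.sum_congr rfl fun w _ => ?_
      split_ifs with h
      · rfl
      · rw [not_not] at h; rw [h, zero_mul]
    refine ⟨W₀, fun w hw => hW₁ w (hsub hw), ?_, ?_⟩
    · by_contra hem
      rw [Finset.not_nonempty_iff_eq_empty] at hem
      rw [hem, Finset.sum_empty] at hsum
      rw [← hsum, add_zero] at e
      exact pp_not_alg hS ht (e ▸ ha)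
    · intro W hW
      constructor
      · intro h
        obtain ⟨a', b', ha', hb', e'⟩ := h.form hS hW
        -- compare on the union
        set V := W₁ ∪ W with hV
        set β : ℂ → ℂ := fun w => (if w ∈ W₁ then b w else 0) - (if w ∈ W then b' w else 0)
          with hβ
        have e2 : (a - a') + ∑ w ∈ V, β w * Complex.exp w = 0 := by
          simp only [hβ, sub_mul, Finset.sum_sub_distrib, ite_mul, zero_mul]
          rw [← Finset.sum_filter, ← Finset.sum_filter]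
          have f1 : V.filter (fun w => w ∈ W₁) = W₁ := by
            ext w; simp [hV]
          have f2 : V.filter (fun w => w ∈ W) = W := by
            ext w; simp [hV]
          rw [f1, f2]
          linear_combination -e + e'
        have h3 := lwW hS V (by
          intro w hw
          rcases Finset.mem_union.1 hw with h | h
          · exact hW₁ w h
          · exact hW w h) (a - a') β (ha.sub ha') (by
          intro w _
          simp only [hβ]
          apply IsAlgebraic.sub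
          · split_ifs with h
            · exact hb w h
            · exact isAlgebraic_zero
          · split_ifs with h
            · exact hb' w h
            · exact isAlgebraic_zero) e2
        intro w hw
        have hw1 : w ∈ W₁ := hsub hw
        have hbw : b w ≠ 0 := (Finset.mem_filter.1 hw).2
        by_contra hwW
        have h4 := h3.2 w (Finset.mem_union_left _ hw1)
        simp only [hβ, if_pos hw1, if_neg hwW, sub_zero] at h4
        exact hbw h4
      · intro hsubW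
        refine ⟨a, -1, fun w => if w ∈ W₀ then b w else 0, ha, isAlgebraic_one.neg, ?_, ?_, ?_⟩
        · intro w _
          show IsAlgebraic (FS S) (if w ∈ W₀ then b w else 0)
          split_ifs with h
          · exact hb w (hsub h)
          · exact isAlgebraic_zero
        · rintro ⟨-, h, -⟩
          exact neg_ne_zero.2 one_ne_zero h
        · simp only [ite_mul, zero_mul]
          rw [← Finset.sum_filter]
          have f1 : W.filter (fun w => w ∈ W₀) = W₀ := by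
            ext w
            simp only [Finset.mem_filter]
            exact ⟨fun h => h.2, fun h => ⟨hsubW h, h⟩⟩
          rw [f1, hsum, e]
          ring
  · left
    intro W hW h
    exact hex ⟨W, hW, h⟩

end Run7.h927.Ray
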