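import Pool.Agent.R347.LW.Ex

/-! Linear dependence of `1`, exponentials and a power of `π` over the fields of
Lindemann-Weierstrass type. -/

set_option autoImplicit false

namespace Run7.h927.Ray

open Complex Pool.Agent.R347.LW

/-- the field generated by a set of real numbers -/
noncomputable abbrev FS (S : Set ℝ) : IntermediateField ℚ ℂ :=
  IntermediateField.adjoin ℚ (Complex.ofReal '' S)

theorem mem_KS {S : Set ℝ} {x : ℂ} : x ∈ KS S ↔ IsAlgebraic (FS S) x := mem_algebraicClosure_iff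

/-- comparison of two exponential sums -/
theorem compare {S : Set ℝ} (hS : UltraLiouville S) {α β δ : ℂ} (hα : IsAlgebraic (FS S) α)
    (hβ : IsAlgebraic (FS S) β) (hδ : IsAlgebraic (FS S) δ) (hα0 : α ≠ 0) (l k : ℕ) (u v : ℕ → ℂ)
    (hu : ∀ i, IsAlgebraic (FS S) (u i)) (hv : ∀ i, IsAlgebraic (FS S) (v i))
    (δ' : ℂ) (hδ' : IsAlgebraic (FS S) δ')
    (h : ∑ i ∈ Finset.range (l + 1), u i * Complex.exp (i * α + δ') =
      ∑ j ∈ Finset.range (k + 1), v j * Complex.exp (j * β + δ)) (i : ℕ) (hi : i ≤ l)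
    (hui : u i ≠ 0) : ∃ j ≤ k, (j : ℂ) * β + δ = i * α + δ' ∧ v j ≠ 0 := by
  classical
  have hnat : ∀ n : ℕ, IsAlgebraic (FS S) (n : ℂ) := fun n => isAlgebraic_natCast n
  set W : Finset ℂ := (Finset.range (l + 1)).image (fun i : ℕ => (i : ℂ) * α + δ') ∪
    (Finset.range (k + 1)).image (fun j : ℕ => (j : ℂ) * β + δ) with hW
  have hWalg : ∀ w ∈ W, IsAlgebraic (FS S) w := by
    intro w hw
    rcases Finset.mem_union.1 hw with hw | hw
    · obtain ⟨i, -, rfl⟩ := Finset.mem_image.1 hw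
      exact ((hnat i).mul hα).add hδ'
    · obtain ⟨i, -, rfl⟩ := Finset.mem_image.1 hw
      exact ((hnat i).mul hβ).add hδ
  set c : ℂ → ℂ := fun w => (∑ i ∈ Finset.range (l + 1), if (i : ℂ) * α + δ' = w then u i else 0) -
    ∑ j ∈ Finset.range (k + 1), if (j : ℂ) * β + δ = w then v j else 0 with hc
  have hcalg : ∀ w, IsAlgebraic (FS S) (c w) := by
    intro w
    apply IsAlgebraic.sub
    · refine mem_KS.1 (sum_mem fun i _ => mem_KS.2 ?_)
      split_ifs
      · exact hu i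
      · exact isAlgebraic_zero
    · refine mem_KS.1 (sum_mem fun i _ => mem_KS.2 ?_)
      split_ifs
      · exact hv i
      · exact isAlgebraic_zero
  have hsum : ∑ w : W, c w * Complex.exp (w : ℂ) = 0 := by
    rw [Finset.sum_coe_sort W (fun w => c w * Complex.exp w)]
    have e1 : ∀ (n : ℕ) (γ ε : ℂ) (x : ℕ → ℂ),
        (∀ i ∈ Finset.range (n + 1), (i : ℂ) * γ + ε ∈ W) →
        ∑ w ∈ W, (∑ i ∈ Finset.range (n + 1), if (i : ℂ) * γ + ε = w then x i else 0) *
          Complex.exp w = ∑ i ∈ Finset.range (n + 1), x i * Complex.exp (i * γ + ε) := by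
      intro n γ ε x hx
      simp only [Finset.sum_mul]
      rw [Finset.sum_comm]
      refine Finset.sum_congr rfl fun i hi => ?_
      rw [Finset.sum_eq_single ((i : ℂ) * γ + ε)]
      · simp
      · intro w _ hw
        rw [if_neg (Ne.symm hw), zero_mul]
      · intro hn
        exact absurd (hx i hi) hn
    simp only [hc, sub_mul, Finset.sum_sub_distrib]
    rw [e1 l α δ' u, e1 k β δ v, h, sub_self]
    · intro i hi
      exact Finset.mem_union_right _ (Finset.mem_image_of_mem _ hi)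
    · intro i hi
      exact Finset.mem_union_left _ (Finset.mem_image_of_mem _ hi)
  have hz := lw_finset S hS (Finset.univ : Finset W) (fun w => (w : ℂ)) (fun w => c w)
    (fun w => mem_KS.2 (hWalg w w.2)) (fun w => mem_KS.2 (hcalg w)) Subtype.val_injective hsum
  have hmem : (i : ℂ) * α + δ' ∈ W := Finset.mem_union_left _
    (Finset.mem_image_of_mem _ (Finset.mem_range.2 (by omega)))
  have h0 := hz ⟨_, hmem⟩ (Finset.mem_univ _)
  simp only [hc] at h0
  have e2 : (∑ i' ∈ Finset.range (l + 1), if (i' : ℂ) * α + δ' = i * α + δ' then u i' else 0) =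
      u i := by
    rw [Finset.sum_eq_single i]
    · simp
    · intro b _ hb
      rw [if_neg]
      intro hbi
      exact hb (by exact_mod_cast mul_right_cancel₀ hα0 (add_right_cancel hbi))
    · intro hn
      exact absurd (Finset.mem_range.2 (by omega)) hn
  rw [e2, sub_eq_zero] at h0
  by_contra hcon
  push Not at hcon
  apply hui
  rw [h0]
  refine Finset.sum_eq_zero fun j hj => ?_
  split_ifs with hjβ
  · exact hcon j (by have := Finset.mem_range.1 hj; omega) hjβ
  · rfl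

/-- two terms: uniqueness of the representation -/
theorem two_terms {S : Set ℝ} (hS : UltraLiouville S) {a b c d u v : ℂ}
    (ha : IsAlgebraic (FS S) a) (hb : IsAlgebraic (FS S) b) (hc : IsAlgebraic (FS S) c)
    (hd : IsAlgebraic (FS S) d) (hu : IsAlgebraic (FS S) u) (hv : IsAlgebraic (FS S) v)
    (huv : u ≠ v) (h : a * Complex.exp u + b * Complex.exp v =
      c * Complex.exp u + d * Complex.exp v) : a = c ∧ b = d := by
  have h1 := lw_finset S hS (Finset.univ : Finset (Fin 2)) ![u, v] ![a - c, b - d]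
    (by intro i; fin_cases i <;> simp [mem_KS, hu, hv])
    (by
      intro i
      fin_cases i
      · exact mem_KS.2 (ha.sub hc)
      · exact mem_KS.2 (hb.sub hd))
    (by
      intro i j hij
      fin_cases i <;> fin_cases j <;> simp_all [eq_comm])
    (by
      simp only [Fin.sum_univ_two, Matrix.cons_val_zero, Matrix.cons_val_one]
      linear_combination h)
  exact ⟨sub_eq_zero.1 (h1 0 (Finset.mem_univ _)), sub_eq_zero.1 (h1 1 (Finset.mem_univ _))⟩

theorem expand (a b u v : ℂ) (l : ℕ) : (a * Complex.exp u + b * Complex.exp v) ^ l =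
    ∑ i ∈ Finset.range (l + 1), (b ^ i * a ^ (l - i) * (l.choose i : ℂ)) *
      Complex.exp (i * (v - u) + l * u) := by
  rw [add_comm, add_pow]
  refine Finset.sum_congr rfl fun i hi => ?_
  rw [mul_pow, mul_pow, ← Complex.exp_nat_mul, ← Complex.exp_nat_mul]
  have h1 : i ≤ l := by have := Finset.mem_range.1 hi; omega
  have h2 : Complex.exp (i * (v - u) + l * u) =
      Complex.exp (i * v) * Complex.exp ((l - i : ℕ) * u) := by
    rw [← Complex.exp_add]
    congr 1
    push_cast [Nat.cast_sub h1]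
    ring
  rw [h2]
  ring

/-- powers of two-term sums -/
theorem binom {S : Set ℝ} (hS : UltraLiouville S) {a b c d u v u' v' : ℂ}
    (ha : IsAlgebraic (FS S) a) (hb : IsAlgebraic (FS S) b) (hc : IsAlgebraic (FS S) c)
    (hd : IsAlgebraic (FS S) d) (hu : IsAlgebraic (FS S) u) (hv : IsAlgebraic (FS S) v)
    (hu' : IsAlgebraic (FS S) u') (hv' : IsAlgebraic (FS S) v')
    (ha0 : a ≠ 0) (hb0 : b ≠ 0) (hc0 : c ≠ 0) (hd0 : d ≠ 0) (huv : u ≠ v) (huv' : u' ≠ v')
    (l k : ℕ) (hl : 1 ≤ l) (hk : 1 ≤ k)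
    (h : (a * Complex.exp u + b * Complex.exp v) ^ l =
      (c * Complex.exp u' + d * Complex.exp v') ^ k) :
    l = k ∧ ((u = u' ∧ v = v') ∨ (u = v' ∧ v = u')) := by
  have hpow : ∀ (a b : ℂ) (l i : ℕ), IsAlgebraic (FS S) a → IsAlgebraic (FS S) b →
      IsAlgebraic (FS S) (b ^ i * a ^ (l - i) * (l.choose i : ℂ)) := by
    intro a b l i ha hb
    exact ((hb.pow i).mul (ha.pow (l - i))).mul (isAlgebraic_natCast _)
  have nz : ∀ (a b : ℂ) (l i : ℕ), i ≤ l → b ≠ 0 → a ≠ 0 →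
      b ^ i * a ^ (l - i) * (l.choose i : ℂ) ≠ 0 := by
    intro a b l i hi hb ha
    refine mul_ne_zero (mul_ne_zero (pow_ne_zero _ hb) (pow_ne_zero _ ha)) ?_
    exact_mod_cast (Nat.choose_pos hi).ne'
  rw [expand, expand] at h
  have hα0 : v - u ≠ 0 := sub_ne_zero.2 (Ne.symm huv)
  have hβ0 : v' - u' ≠ 0 := sub_ne_zero.2 (Ne.symm huv')
  have hlu : IsAlgebraic (FS S) (l * u) := (isAlgebraic_natCast _).mul hu
  have hku : IsAlgebraic (FS S) (k * u') := (isAlgebraic_natCast _).mul hu'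
  have C1 : ∀ i ≤ l, ∃ j ≤ k, (j : ℂ) * (v' - u') + k * u' = i * (v - u) + l * u := by
    intro i hi
    obtain ⟨j, hj, h1, -⟩ := compare hS (hv.sub hu) (hv'.sub hu') hku hα0 l k _ _
      (fun i => hpow a b l i ha hb) (fun i => hpow c d k i hc hd) _ hlu h i hi
      (nz a b l i hi hb0 ha0)
    exact ⟨j, hj, h1⟩
  have C2 : ∀ i ≤ k, ∃ j ≤ l, (j : ℂ) * (v - u) + l * u = i * (v' - u') + k * u' := by
    intro i hi
    obtain ⟨j, hj, h1, -⟩ := compare hS (hv'.sub hu') (hv.sub hu) hlu hβ0 k l _ _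
      (fun i => hpow c d k i hc hd) (fun i => hpow a b l i ha hb) _ hku h.symm i hi
      (nz c d k i hi hd0 hc0)
    exact ⟨j, hj, h1⟩
  obtain ⟨α, hα⟩ : ∃ α, α = v - u := ⟨_, rfl⟩
  obtain ⟨β, hβ⟩ : ∃ β, β = v' - u' := ⟨_, rfl⟩
  obtain ⟨δ, hδ⟩ : ∃ δ, δ = (k : ℂ) * u' - l * u := ⟨_, rfl⟩
  rw [← hα] at hα0
  rw [← hβ] at hβ0
  have D1 : ∀ i ≤ l, ∃ j ≤ k, (j : ℂ) * β + δ = i * α := by
    intro i hi
    obtain ⟨j, hj, h1⟩ := C1 i hi
    exact ⟨j, hj, by rw [hα, hβ, hδ]; linear_combination h1⟩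
  have D2 : ∀ i ≤ k, ∃ j ≤ l, (j : ℂ) * α = i * β + δ := by
    intro i hi
    obtain ⟨j, hj, h1⟩ := C2 i hi
    exact ⟨j, hj, by rw [hα, hβ, hδ]; linear_combination h1⟩
  obtain ⟨j₀, hj₀, e₀⟩ := D1 0 (Nat.zero_le _)
  obtain ⟨j₁, hj₁, e₁⟩ := D1 1 hl
  obtain ⟨jl, hjl, el⟩ := D1 l le_rfl
  obtain ⟨i₀, hi₀, f₀⟩ := D2 0 (Nat.zero_le _)
  obtain ⟨i₁, hi₁, f₁⟩ := D2 1 hk
  obtain ⟨ik, hik, fk⟩ := D2 k le_rfl
  rw [Nat.cast_zero, zero_mul] at e₀ f₀
  rw [Nat.cast_one, one_mul] at e₁ f₁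
  rw [zero_add] at f₀
  have g1 : α = ((j₁ : ℤ) - j₀ : ℤ) * β := by push_cast; linear_combination -e₁ + e₀
  have g2 : β = ((i₁ : ℤ) - i₀ : ℤ) * α := by push_cast; linear_combination -f₁ + f₀
  have g3 : ((j₁ : ℤ) - j₀) * ((i₁ : ℤ) - i₀) = 1 := by
    have h1 : ((((j₁ : ℤ) - j₀) * ((i₁ : ℤ) - i₀) : ℤ) : ℂ) * α = 1 * α := by
      rw [one_mul]
      conv_rhs => rw [g1, g2]
      push_cast
      ring
    exact_mod_cast mul_right_cancel₀ hα0 h1
  have cast_eq : ∀ m n : ℤ, (m : ℂ) * α = n * α → m = n := by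
    intro m n hmn
    exact_mod_cast mul_right_cancel₀ hα0 hmn
  rcases Int.mul_eq_one_iff_eq_one_or_neg_one.1 g3 with ⟨m1, m2⟩ | ⟨m1, m2⟩
  · -- same direction
    have hab : α = β := by rw [g1, m1]; push_cast; ring
    rw [← hab] at e₀ el fk
    have q0 : (j₀ : ℤ) + i₀ = 0 := cast_eq _ _ (by push_cast; linear_combination e₀ + f₀)
    have q1 : (jl : ℤ) + i₀ = l := cast_eq _ _ (by push_cast; linear_combination el + f₀)
    have q2 : (k : ℤ) + i₀ = ik := cast_eq _ _ (by push_cast; linear_combination -fk + f₀)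
    have hi00 : i₀ = 0 := by omega
    have hlk : l = k := by omega
    refine ⟨hlk, Or.inl ?_⟩
    have hδ0 : δ = 0 := by rw [← f₀, hi00]; simp
    have hk0 : (k : ℂ) ≠ 0 := by exact_mod_cast (by omega : k ≠ 0)
    have huu : u = u' := by
      rw [hlk, hδ0] at hδ
      have : (k : ℂ) * u = k * u' := by linear_combination hδ
      exact mul_left_cancel₀ hk0 this
    refine ⟨huu, ?_⟩
    rw [hα, hβ, huu] at hab
    exact sub_left_inj.1 hab
  · have hab : β = -α := by rw [g1, m1]; push_cast; ring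
    rw [hab] at e₀ el fk
    have q0 : (i₀ : ℤ) = j₀ := cast_eq _ _ (by push_cast; linear_combination e₀ + f₀)
    have q1 : (i₀ : ℤ) - jl = l := cast_eq _ _ (by push_cast; linear_combination el + f₀)
    have q2 : (i₀ : ℤ) - k = ik := cast_eq _ _ (by push_cast; linear_combination -fk + f₀)
    have hlk : l = k := by omega
    have hil : i₀ = l := by omega
    refine ⟨hlk, Or.inr ?_⟩
    have hk0 : (k : ℂ) ≠ 0 := by exact_mod_cast (by omega : k ≠ 0)
    have hvu : v = u' := by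
      rw [hil, hlk, hδ, hα, hlk] at f₀
      have : (k : ℂ) * v = k * u' := by linear_combination f₀
      exact mul_left_cancel₀ hk0 this
    refine ⟨?_, hvu⟩
    have h1 : v' - u' = -(v - u) := by rw [← hα, ← hβ, hab]
    rw [hvu] at h1
    linear_combination -h1

/-- a power of a two-term sum is not a monomial -/
theorem binom_mono {S : Set ℝ} (hS : UltraLiouville S) {a b c u v w : ℂ}
    (ha : IsAlgebraic (FS S) a) (hb : IsAlgebraic (FS S) b) (hc : IsAlgebraic (FS S) c)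
    (hu : IsAlgebraic (FS S) u) (hv : IsAlgebraic (FS S) v) (hw : IsAlgebraic (FS S) w)
    (ha0 : a ≠ 0) (hb0 : b ≠ 0) (huv : u ≠ v) (l : ℕ) (hl : 1 ≤ l)
    (h : (a * Complex.exp u + b * Complex.exp v) ^ l = c * Complex.exp w) : False := by
  rw [expand] at h
  have h' : ∑ i ∈ Finset.range (l + 1), (b ^ i * a ^ (l - i) * (l.choose i : ℂ)) *
      Complex.exp (i * (v - u) + l * u) =
      ∑ j ∈ Finset.range (0 + 1), (fun _ => c) j * Complex.exp (j * 0 + w) := by
    rw [h]; simp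
  have hα0 : v - u ≠ 0 := sub_ne_zero.2 (Ne.symm huv)
  have C : ∀ i ≤ l, w = i * (v - u) + l * u := by
    intro i hi
    obtain ⟨j, hj, h1, -⟩ := compare hS (hv.sub hu) isAlgebraic_zero hw hα0 l 0 _ _
      (fun i => ((hb.pow i).mul (ha.pow (l - i))).mul (isAlgebraic_natCast _)) (fun _ => hc) _
      ((isAlgebraic_natCast _).mul hu) h' i hi
      (mul_ne_zero (mul_ne_zero (pow_ne_zero _ hb0) (pow_ne_zero _ ha0))
        (by exact_mod_cast (Nat.choose_pos hi).ne'))
    simpa using h1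
  have h0 := C 0 (Nat.zero_le _)
  have h1 := C 1 hl
  apply hα0
  rw [Nat.cast_zero] at h0
  rw [Nat.cast_one] at h1
  linear_combination -h1 + h0

/-- comparison of two monomials -/
theorem mono_mono {S : Set ℝ} (hS : UltraLiouville S) {a b u v : ℂ}
    (ha : IsAlgebraic (FS S) a) (hb : IsAlgebraic (FS S) b)
    (hu : IsAlgebraic (FS S) u) (hv : IsAlgebraic (FS S) v)
    (ha0 : a ≠ 0) (h : a * Complex.exp u = b * Complex.exp v) : u = v := by
  by_contra huv
  have h1 := two_terms hS ha (isAlgebraic_zero) (isAlgebraic_zero) hb hu hv huv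
    (by rw [h]; ring)
  exact ha0 h1.1

end Run7.h927.Ray
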